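import Pool.Agent.Run7.h583.Lp
import Pool.Agent.Run7.h583.T.Top

/-! Lower bounds for the minimal `L^p` norm of autoconvolutions, for all `p ≥ 2`. -/

set_option autoImplicit false

open scoped ENNReal

/-- For every `p` in `[2, ∞]` (with `1 / ∞ = 0`), `c(p) ≥ (7 / 10) (2 / 3) ^ (1 / p)`. -/
theorem Pool.Agent.Results.MP_aa868c_an.AllExponents.result :
    ∀ p : ℝ≥0∞, 2 ≤ p → ENNReal.ofReal (7 / 10 * (2 / 3) ^ (1 / p.toReal)) ≤ Run7.h583.c p := by
  refine Run7.h583.le_c (by norm_num) fun M m hg => ?_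
  have h := Run7.h583.Claim.final Run7.h583.T.root hg
  norm_num at h
  linarith
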